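import Pool.Agent.J4H64.VC.Main

set_option autoImplicit false
set_option linter.unusedSectionVars false

/-!
Unique games: positions with a group element, worlds, games of worlds.
-/

namespace Pool.Agent.J4H64.UG

open Finset DomAC0 Pool.Agent.J4H64.VC
open scoped Classical

/-- positions: a group of copies, a slot and an element of the group `Γ` -/
@[ext] structure Ps (C R Γ : Type) where
  /-- the group of copies -/
  g : C
  /-- the slot -/
  t : R
  /-- the element -/
  b : Γ

/-- positions as triples -/
def psEquiv (C R Γ : Type) : (C × R × Γ) ≃ Ps C R Γ where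
  toFun p := ⟨p.1, p.2.1, p.2.2⟩
  invFun p := (p.g, p.t, p.b)
  left_inv _ := rfl
  right_inv _ := rfl

instance {C R Γ : Type} [Fintype C] [Fintype R] [Fintype Γ] : Fintype (Ps C R Γ) :=
  Fintype.ofEquiv _ (psEquiv C R Γ)

theorem card_ps (C R Γ : Type) [Fintype C] [Fintype R] [Fintype Γ] :
    Fintype.card (Ps C R Γ) = Fintype.card C * (Fintype.card R * Fintype.card Γ) := by
  rw [← Fintype.card_congr (psEquiv C R Γ), Fintype.card_prod, Fintype.card_prod]

section views

variable {V E C R Γ : Type} [Fintype V] [Fintype E] [Fintype C] [Fintype R] [Fintype Γ] [Group Γ]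
  (src tgt : E → V) (w : E → Γ)

/-- the shift by `x` in the groups with signature one -/
def sh (s : C → Bool) (x : Γ) : Equiv.Perm (Ps C R Γ) where
  toFun p := ⟨p.g, p.t, if s p.g then x * p.b else p.b⟩
  invFun p := ⟨p.g, p.t, if s p.g then x⁻¹ * p.b else p.b⟩
  left_inv p := by
    rcases p with ⟨g, t, b⟩
    simp only [Ps.mk.injEq, true_and]
    split_ifs <;> simp
  right_inv p := by
    rcases p with ⟨g, t, b⟩
    simp only [Ps.mk.injEq, true_and]
    split_ifs <;> simp

@[simp] theorem sh_g (s : C → Bool) (x : Γ) (p : Ps C R Γ) : (sh s x p).g = p.g := rfl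

/-- the world of a naming of the positions -/
def mk (s : C → Bool) (y : V → Equiv.Perm (Ps C R Γ)) : E → Equiv.Perm (Ps C R Γ) :=
  fun e => y (tgt e) * sh s (w e) * (y (src e))⁻¹

theorem mk_apply (s : C → Bool) (y : V → Equiv.Perm (Ps C R Γ)) (e : E) (p : Ps C R Γ) :
    mk src tgt w s y e (y (src e) p) = y (tgt e) (sh s (w e) p) := by
  simp [mk, Equiv.Perm.mul_apply]

end views

/-! ### Games -/

/-- A system of equations `x i + c = y j` modulo `q`, one for every triple `(i, j, c)` of `G`:
a unique game with alphabet `ZMod q` and at most `n` vertices on each side. -/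
abbrev Game (n q : ℕ) : Type := Finset (Fin n × Fin n × ZMod q)

/-- The satisfied equations. -/
def sat {n q : ℕ} (G : Game n q) (x y : Fin n → ZMod q) : Finset (Fin n × Fin n × ZMod q) :=
  G.filter fun t => x t.1 + t.2.2 = y t.2.1

/-- The value of a game: the largest fraction of satisfied equations. -/
noncomputable def value {n q : ℕ} (G : Game n q) : ℝ :=
  ⨆ l : (Fin n → ZMod q) × (Fin n → ZMod q), ((sat G l.1 l.2).card : ℝ) / G.card

/-- Every vertex on either side lies in at most `Δ` equations. -/
def MaxDeg {n q : ℕ} (Δ : ℕ) (G : Game n q) : Prop :=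
  ∀ v, (G.filter fun t => t.1 = v).card ≤ Δ ∧ (G.filter fun t => t.2.1 = v).card ≤ Δ

section game

variable {m n q : ℕ} [NeZero q] {B : SimpleGraph (Fin m)} {C R : Type} [Fintype C] [Fintype R]

/-- The game of a world: the equations `x (src e, p) + w e = y (tgt e, ω e p)`. -/
noncomputable def gm (w : Ed B → ZMod q) (κ : Fin m × Ps C R (Multiplicative (ZMod q)) ↪ Fin n)
    (ω : Ed B → Equiv.Perm (Ps C R (Multiplicative (ZMod q)))) : Game n q :=
  (univ : Finset (Ed B × Ps C R (Multiplicative (ZMod q)))).image fun z =>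
    (κ (sr B z.1, z.2), κ (tg B z.1, ω z.1 z.2), w z.1)

end game

end Pool.Agent.J4H64.UG
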