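import Pool.Agent.J4H64.UG.Ps

set_option autoImplicit false

/-!
Project UG: the statements of the pieces.
-/

namespace Pool.Agent.J4H64.UG

open Finset DomAC0 Pool.Agent.J4H64.VC
open scoped Classical

/-- BASE -/
def S_BASE : Prop :=
  ∀ δ : ℝ, 0 < δ → ∃ r L : ℕ, ∀ g : ℕ, ∃ (m : ℕ) (B : SimpleGraph (Fin m))
    (w : Ed B → ZMod (r + 2)), 0 < Fintype.card (Ed B) ∧ Tree (sr B) (tg B) g ∧
    (∀ v, (univ.filter fun e => sr B e = v).card + (univ.filter fun e => tg B e = v).card ≤ L) ∧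
    ∀ x y : Fin m → ZMod (r + 2),
      ((univ.filter fun e : Ed B => x (sr B e) + w e = y (tg B e)).card : ℝ) ≤
        δ * Fintype.card (Ed B)

/-- CARD: the number of equations and the degrees -/
def S_CARD : Prop :=
  ∀ (m n q : ℕ) [NeZero q] (B : SimpleGraph (Fin m)) (C R : Type) [Fintype C] [Fintype R]
    (w : Ed B → ZMod q) (κ : Fin m × Ps C R (Multiplicative (ZMod q)) ↪ Fin n)
    (ω : Ed B → Equiv.Perm (Ps C R (Multiplicative (ZMod q)))),
    (gm w κ ω).card = Fintype.card (Ed B) * Fintype.card (Ps C R (Multiplicative (ZMod q))) ∧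
    ∀ L : ℕ, (∀ v, (univ.filter fun e => sr B e = v).card +
      (univ.filter fun e => tg B e = v).card ≤ L) → MaxDeg L (gm w κ ω)

/-- ONE: with all signatures one all the equations can be satisfied -/
def S_ONE : Prop :=
  ∀ (m n q : ℕ) [NeZero q] (B : SimpleGraph (Fin m)) (C R : Type) [Fintype C] [Fintype R]
    (w : Ed B → ZMod q) (κ : Fin m × Ps C R (Multiplicative (ZMod q)) ↪ Fin n)
    (y : Fin m → Equiv.Perm (Ps C R (Multiplicative (ZMod q)))),
    ∃ x : Fin n → ZMod q,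
      sat (gm w κ (mk (sr B) (tg B) (fun e => Multiplicative.ofAdd (w e)) (fun _ => true) y)) x x =
        gm w κ (mk (sr B) (tg B) (fun e => Multiplicative.ofAdd (w e)) (fun _ => true) y)

/-- ZERO: with all signatures zero the game is a union of copies of the base -/
def S_ZERO : Prop :=
  ∀ (m n q : ℕ) [NeZero q] (B : SimpleGraph (Fin m)) (C R : Type) [Fintype C] [Fintype R]
    (w : Ed B → ZMod q) (κ : Fin m × Ps C R (Multiplicative (ZMod q)) ↪ Fin n)
    (y : Fin m → Equiv.Perm (Ps C R (Multiplicative (ZMod q)))) (δ : ℝ),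
    (∀ x y : Fin m → ZMod q, ((univ.filter fun e : Ed B => x (sr B e) + w e = y (tg B e)).card : ℝ)
      ≤ δ * Fintype.card (Ed B)) →
    ∀ x x' : Fin n → ZMod q, ((sat (gm w κ (mk (sr B) (tg B)
      (fun e => Multiplicative.ofAdd (w e)) (fun _ => false) y)) x x').card : ℝ) ≤
      δ * (Fintype.card (Ed B) * Fintype.card (Ps C R (Multiplicative (ZMod q))))

/-- VAL: the value of a game by its labelings -/
def S_VAL : Prop :=
  ∀ (n q : ℕ) [NeZero q] (G : Game n q), G.Nonempty →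
    (∀ δ : ℝ, (∀ x y : Fin n → ZMod q, ((sat G x y).card : ℝ) ≤ δ * G.card) → value G ≤ δ) ∧
    (∀ x y : Fin n → ZMod q, ((sat G x y).card : ℝ) ≤ value G * G.card) ∧
    ((∃ x y : Fin n → ZMod q, sat G x y = G) → value G = 1)

/-- UC: an input bit depends on one fact -/
def S_UC : Prop :=
  ∀ (m n q : ℕ) [NeZero q] (B : SimpleGraph (Fin m)) (C R : Type) [Fintype C] [Fintype R]
    (w : Ed B → ZMod q) (κ : Fin m × Ps C R (Multiplicative (ZMod q)) ↪ Fin n)
    (W : Set (Ed B → Equiv.Perm (Ps C R (Multiplicative (ZMod q)))))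
    (t : Fin n × Fin n × ZMod q), VC.UC 1 W fun ω => t ∈ gm w κ ω

/-- NET: the net of a circuit which reads the bits `t ∈ G` -/
def S_NET : Prop :=
  ∀ (m n q : ℕ) [NeZero q] (B : SimpleGraph (Fin m)) (C R : Type) [Fintype C] [Fintype R]
    (w : Ed B → ZMod q) (κ : Fin m × Ps C R (Multiplicative (ZMod q)) ↪ Fin n)
    (Cc : Circuit (Fin n × Fin n × ZMod q)),
    ∃ T : Net (Ed B) (Ps C R (Multiplicative (ZMod q))) ((Fin n × Fin n × ZMod q) ⊕ Fin Cc.size),
      (∀ v ω, T.val v ω = Cc.nodeVal (fun t => decide (t ∈ gm w κ ω)) v) ∧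
      ∀ v, T.lev v = Cc.nodeDepth v

/-- ANDS: a net with additional conjunctions of nodes -/
def S_ANDS : Prop :=
  ∀ (E P N I : Type) [Fintype E] [Fintype P] (T : Net E P N) (f : I → Finset N) (d : ℕ),
    (∀ i, ∀ u ∈ f i, T.lev u ≤ d) →
    ∃ T' : Net E P (N ⊕ I), (∀ u ω, T'.val (Sum.inl u) ω = T.val u ω) ∧
      (∀ u, T'.lev (Sum.inl u) = T.lev u) ∧ (∀ i, T'.lev (Sum.inr i) = d + 1) ∧
      ∀ i ω, T'.val (Sum.inr i) ω = decide (∀ u ∈ f i, T.val u ω = true)

end Pool.Agent.J4H64.UG
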